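import Pool.Agent.Run7.h80.HK.Final

/-!
# Hilbert-Schmidt Hankel operators with conjugate holomorphic symbols on Reinhardt domains

For `n ≥ 2` and every bounded Reinhardt domain `Ω ⊆ ℂ^n` the only Hilbert-Schmidt Hankel operator
`H_{\bar f}` on `A²(Ω)` with `f` holomorphic on `Ω` is `0`.
-/

set_option autoImplicit false

open MeasureTheory
open scoped ComplexConjugate

namespace Pool.Agent.Results.MP_dc9318_an.NoHilbertSchmidt

variable {n : ℕ}

/-- An open subset of `ℂ^n`. -/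
abbrev Dom (n : ℕ) : Type := TopologicalSpace.Opens (Fin n → ℂ)

/-- Lebesgue measure on `Ω`. -/
noncomputable def leb (Ω : Dom n) : Measure (Fin n → ℂ) := volume.restrict (Ω : Set (Fin n → ℂ))

/-- `L²(Ω)`, the Hilbert space `Lp ℂ 2` of Lebesgue measure on `Ω`. -/
def L2 (Ω : Dom n) : Type := Lp ℂ 2 (leb Ω)

noncomputable instance instNormedAddCommGroupL2 (Ω : Dom n) : NormedAddCommGroup (L2 Ω) :=
  (Lp.instNormedAddCommGroup : NormedAddCommGroup (Lp ℂ 2 (leb Ω)))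

noncomputable instance instInnerProductSpaceL2 (Ω : Dom n) : InnerProductSpace ℂ (L2 Ω) :=
  (MeasureTheory.L2.innerProductSpace : InnerProductSpace ℂ (Lp ℂ 2 (leb Ω)))

/-- The function (defined almost everywhere) given by an element of `L²(Ω)`. -/
noncomputable def L2.fn {Ω : Dom n} (u : L2 Ω) : (Fin n → ℂ) → ℂ := (show Lp ℂ 2 (leb Ω) from u)

/-- The element of `L²(Ω)` given by a square integrable function. -/
noncomputable def L2.of {Ω : Dom n} (φ : (Fin n → ℂ) → ℂ) (h : MemLp φ 2 (leb Ω)) : L2 Ω :=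
  h.toLp φ

/-- The elements of `L²(Ω)` which are given by holomorphic functions. -/
def IsHol (Ω : Dom n) (u : L2 Ω) : Prop :=
  ∃ g : (Fin n → ℂ) → ℂ, DifferentiableOn ℂ g Ω ∧ u.fn =ᵐ[leb Ω] g

lemma zero_mem_aux (Ω : Dom n) : IsHol Ω 0 := (Run7.h80.HK.A2 Ω).zero_mem'

lemma add_mem_aux (Ω : Dom n) {u v : L2 Ω} : IsHol Ω u → IsHol Ω v → IsHol Ω (u + v) :=
  (Run7.h80.HK.A2 Ω).add_mem'

lemma smul_mem_aux (Ω : Dom n) (c : ℂ) {u : L2 Ω} : IsHol Ω u → IsHol Ω (c • u) :=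
  (Run7.h80.HK.A2 Ω).smul_mem' c

/-- The Bergman space `A²(Ω)`: the elements of `L²(Ω)` which are given by holomorphic functions. -/
def Bergman (Ω : Dom n) : Submodule ℂ (L2 Ω) where
  carrier := {u | IsHol Ω u}
  zero_mem' := zero_mem_aux Ω
  add_mem' := add_mem_aux Ω
  smul_mem' := smul_mem_aux Ω

instance instCompleteSpaceBergman (Ω : Dom n) : CompleteSpace (Bergman Ω) :=
  (inferInstance : CompleteSpace (Run7.h80.HK.A2 Ω))

/-- `Ω` is a Reinhardt set. -/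
def IsReinhardt (Ω : Set (Fin n → ℂ)) : Prop :=
  ∀ z ∈ Ω, ∀ θ : Fin n → ℝ, (fun j => Complex.exp (θ j * Complex.I) * z j) ∈ Ω

/-- The domain `{g ∈ A²(Ω) : \bar f g ∈ L²(Ω)}` of the Hankel operator `H_{\bar f}`. -/
def hankelDomain (Ω : Dom n) (f : (Fin n → ℂ) → ℂ) : Set (Bergman Ω) :=
  {g | MemLp (fun z => conj (f z) * g.1.fn z) 2 (leb Ω)}

/-- The Hankel operator: `H_{\bar f} g = (I - P)(\bar f g)` for `g` in its domain, where `P` is the
orthogonal projection of `L²(Ω)` onto `A²(Ω)`. -/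
noncomputable def hankel (Ω : Dom n) (f : (Fin n → ℂ) → ℂ) (g : Bergman Ω)
    (hg : g ∈ hankelDomain Ω f) : L2 Ω :=
  L2.of _ hg - (Bergman Ω).starProjection (L2.of _ hg)

/-- The bounded linear operators from `A²(Ω)` to `L²(Ω)`. -/
def Op (Ω : Dom n) : Type := Bergman Ω →L[ℂ] L2 Ω

/-- The value of an operator. -/
noncomputable def Op.app {Ω : Dom n} (T : Op Ω) (g : Bergman Ω) : L2 Ω := (show Bergman Ω →L[ℂ] L2 Ω from T) g

/-- The orthonormal (Hilbert) bases of `A²(Ω)` indexed by `ι`. -/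
def ONB (ι : Type) (Ω : Dom n) : Type := HilbertBasis ι ℂ (Bergman Ω)

/-- The elements of an orthonormal basis. -/
noncomputable def ONB.vec {ι : Type} {Ω : Dom n} (b : ONB ι Ω) (i : ι) : Bergman Ω :=
  (show HilbertBasis ι ℂ (Bergman Ω) from b) i

/-- The norm of `L²(Ω)`. -/
noncomputable def L2.nrm {Ω : Dom n} (u : L2 Ω) : ℝ := ‖u‖

/-- The bounded operator `T` is a Hilbert-Schmidt operator: `∑ ‖T e_i‖ ^ 2 < ∞` for an orthonormal
basis `(e_i)` of `A²(Ω)`. -/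
def IsHilbertSchmidt {Ω : Dom n} (T : Op Ω) : Prop :=
  ∃ (ι : Type) (b : ONB ι Ω), Summable fun i => (T.app (b.vec i)).nrm ^ 2

/-- The Hankel operator `H_{\bar f}` is Hilbert-Schmidt: its domain is dense in `A²(Ω)` and it
extends to a Hilbert-Schmidt operator from `A²(Ω)` to `L²(Ω)`. -/
def HankelHS (Ω : Dom n) (f : (Fin n → ℂ) → ℂ) : Prop :=
  Dense (hankelDomain Ω f) ∧
    ∃ T : Op Ω, IsHilbertSchmidt T ∧
      ∀ g (hg : g ∈ hankelDomain Ω f), T.app g = hankel Ω f g hg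

/-- Let `n ≥ 2`, let `Ω ⊆ ℂ^n` be a bounded Reinhardt domain and let `f` be holomorphic on `Ω`. If
the Hankel operator `H_{\bar f}` on `A²(Ω)` is Hilbert-Schmidt, then `f` is constant on `Ω` and
`H_{\bar f} = 0`. -/
theorem result (n : ℕ) (hn : 2 ≤ n) (Ω : Dom n)
    (hconn : IsConnected (Ω : Set (Fin n → ℂ))) (hbdd : Bornology.IsBounded (Ω : Set (Fin n → ℂ)))
    (hrein : IsReinhardt (Ω : Set (Fin n → ℂ))) (f : (Fin n → ℂ) → ℂ)
    (hf : DifferentiableOn ℂ f (Ω : Set (Fin n → ℂ))) (hHS : HankelHS Ω f) :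
    (∃ c : ℂ, ∀ z ∈ Ω, f z = c) ∧
      ∀ g (hg : g ∈ hankelDomain Ω f), hankel Ω f g hg = 0 := by
  obtain ⟨hD, T, ⟨ι, b, hsum⟩, hT⟩ := hHS
  have H : Run7.h80.HK.Setup Ω f T :=
    { conn := hconn.isPreconnected
      ne := hconn.nonempty
      bdd := hbdd
      rein := hrein
      hol := hf
      dense := hD
      eq := hT }
  obtain ⟨c, hc⟩ := Run7.h80.HK.symbol_const hn H b hsum
  exact ⟨⟨c, hc⟩, fun g hg => Run7.h80.HK.hankel_const hc g hg⟩

end Pool.Agent.Results.MP_dc9318_an.NoHilbertSchmidt
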